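import Pool.Agent.W196.VG.Dep

/-! The law of large numbers for the pattern (VG-LLN). -/

set_option autoImplicit false

open Finset MeasureTheory ProbabilityTheory Filter
open scoped Classical

namespace Pool.Agent.W196.VG

open Pool.Agent.W844.VG

variable {d : ℕ}

lemma pow_le_two_pow (a d : ℕ) : ∃ C : ℝ, 0 < C ∧ ∀ t : ℕ, ((a : ℝ) * (t + 1)) ^ d ≤ C * 2 ^ t := by
  have h := (tendsto_pow_const_div_const_pow_of_one_lt d (r := (2 : ℝ)) (by norm_num)).bddAbove_range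
  obtain ⟨B, hB⟩ := h
  have hB' : ∀ t : ℕ, ((t : ℝ)) ^ d / 2 ^ t ≤ B := fun t => hB ⟨t, rfl⟩
  have hB0 : 0 ≤ B := le_trans (by positivity) (hB' 0)
  refine ⟨(a : ℝ) ^ d * B * 2 + 1, by positivity, fun t => ?_⟩
  have h1 := hB' (t + 1)
  rw [div_le_iff₀ (by positivity)] at h1
  push_cast at h1
  rw [mul_pow]
  have h2 : (0 : ℝ) ≤ (a : ℝ) ^ d := by positivity
  have h3 : (0 : ℝ) < 2 ^ t := by positivity
  calc (a : ℝ) ^ d * ((t : ℝ) + 1) ^ d ≤ (a : ℝ) ^ d * (B * 2 ^ (t + 1)) :=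
        mul_le_mul_of_nonneg_left h1 h2
    _ = ((a : ℝ) ^ d * B * 2) * 2 ^ t := by ring
    _ ≤ _ := by nlinarith

lemma lin_le_two_pow (a : ℕ) : ∃ t0 : ℕ, ∀ t, t0 ≤ t → a * (t + 1) ≤ 2 ^ t := by
  have h := tendsto_pow_const_div_const_pow_of_one_lt 1 (r := (2 : ℝ)) (by norm_num)
  have h2 : ∀ᶠ n : ℕ in atTop, (n : ℝ) ^ 1 / 2 ^ n < 1 / (2 * ((a : ℝ) + 1)) :=
    h.eventually_lt_const (by positivity)
  obtain ⟨t0, ht0⟩ := eventually_atTop.mp h2
  refine ⟨t0, fun t ht => ?_⟩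
  have h3 := ht0 (t + 1) (by omega)
  rw [div_lt_div_iff₀ (by positivity) (by positivity)] at h3
  push_cast at h3
  rw [pow_one, pow_succ] at h3
  have h4 : ((a : ℝ)) * (t + 1) ≤ 2 ^ t := by
    have : (0 : ℝ) ≤ (t : ℝ) + 1 := by positivity
    nlinarith
  exact_mod_cast h4

lemma lg_le_self (d : ℕ) : ∃ K0 : ℕ, ∀ k, K0 ≤ k → ∀ n, n + 2 ≤ 2 * k → lg d n ≤ k := by
  obtain ⟨t0, ht0⟩ := lin_le_two_pow (d + 2)
  refine ⟨2 ^ t0, fun k hk n hn => ?_⟩
  have hk0 : k ≠ 0 := by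
    have := Nat.pos_of_ne_zero (pow_ne_zero t0 (two_ne_zero (α := ℕ))); omega
  have h1 : t0 ≤ Nat.log 2 k := Nat.le_log_of_pow_le (by norm_num) hk
  have h2 := ht0 _ h1
  have h3 : 2 ^ Nat.log 2 k ≤ k := Nat.pow_log_le_self 2 hk0
  have h4 : Nat.log 2 (n + 2) ≤ Nat.log 2 k + 1 := by
    rw [← Nat.log_mul_base (by norm_num) hk0]
    exact Nat.log_mono_right (by omega)
  unfold lg
  calc (d + 2) * Nat.log 2 (n + 2) ≤ (d + 2) * (Nat.log 2 k + 1) := Nat.mul_le_mul_left _ h4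
    _ ≤ _ := h2.trans h3

/-- deterministic part: the local event implies that `v` is in an infinite cluster -/
lemma inf_of_local (hNear : S_NEAR) (hPatc : S_PATC) {Ω : Type} (X : E d → Ω → Bool) (i : Fin d)
    (hd : 2 ≤ d) (ω : Ω) (hG : Good (opn X ω)) :
    ∃ N1 : ℕ, ∀ N, N1 ≤ N → ∀ v ∈ box d N, ω ∈ AE X i (lg d (4 * N + 8)) v →
      Pat (opn X ω) i v ∧ v ∈ InfV (opn X ω) := by
  obtain ⟨N0, hN0⟩ := hG
  obtain ⟨K0, hK0⟩ := lg_le_self d
  refine ⟨max N0 K0, fun N hN v hv hω => ?_⟩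
  have hN0' : N0 ≤ N := (le_max_left _ _).trans hN
  have hK0' : K0 ≤ N := (le_max_right _ _).trans hN
  obtain ⟨hpat, hbad⟩ := hω
  refine ⟨hpat, ?_⟩
  by_contra hv2
  have h1 : v ∉ InfV (opn X ω ∪ {e | nm (e.1 - v) ≤ 4}) := by
    intro h2
    apply hv2
    exact h2.mono fun y hy => hPatc d hd (opn X ω) i v hpat v y hy
  obtain ⟨k, -, hk⟩ := hNear d hd (opn X ω ∪ {e | nm (e.1 - v) ≤ 4}) v 0 i (by
    intro x hx
    have : x = v := by
      have := eq_zero_of_nm (Nat.le_zero.mp hx)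
      exact sub_eq_zero.mp this
    rw [this]; exact h1)
  by_cases hkm : k ≤ lg d (4 * N + 8)
  · exact hbad ⟨k, hkm, hk⟩
  · push Not at hkm
    rw [mem_box] at hv
    have h2 : nm (v + (k : ℤ) • stp i) ≤ N + k := by
      have := nm_add_le v ((k : ℤ) • stp i)
      rw [nm_zsmul_stp] at this
      simp only [Int.natAbs_natCast] at this
      omega
    have h3 : lg d (N + k) ≤ k := by
      by_cases hk3 : k ≤ 3 * N + 8
      · have h4 : lg d (N + k) ≤ lg d (4 * N + 8) := by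
          unfold lg
          exact Nat.mul_le_mul_left _ (Nat.log_mono_right (by omega))
        omega
      · exact hK0 k (by omega) _ (by omega)
    exact hN0 (N + k) (by omega) (v + (k : ℤ) • stp i, i) h2
      (hk.mono h3 Set.subset_union_left)

lemma cheb_bound (d : ℕ) (hd : 3 ≤ d) (ρ : ℝ) (hρ : 0 < ρ) : ∃ C : ℝ, 0 < C ∧ ∀ N : ℕ,
    4 * (2 * ((4 * lg d (4 * N + 8) + 8 : ℕ) : ℝ) + 1) ^ d / (ρ ^ 2 * (2 * N + 1) ^ d) ≤
      C * (1 / ((N : ℝ) + 1) ^ 2) := by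
  obtain ⟨C, hC0, hC⟩ := pow_le_two_pow (8 * (d + 2) + 17) d
  refine ⟨4 * C * 10 / ρ ^ 2, by positivity, fun N => ?_⟩
  set t := Nat.log 2 (4 * N + 10) with ht
  have h1 : (2 : ℝ) ^ t ≤ 10 * ((N : ℝ) + 1) := by
    have h2 : 2 ^ t ≤ 4 * N + 10 := Nat.pow_log_le_self 2 (by omega)
    have h3 : ((2 : ℝ)) ^ t ≤ 4 * N + 10 := by exact_mod_cast h2
    have : (0 : ℝ) ≤ N := by positivity
    linarith
  have hl : lg d (4 * N + 8) = (d + 2) * t := rfl
  have h2 : (2 * ((4 * lg d (4 * N + 8) + 8 : ℕ) : ℝ) + 1) ≤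
      ((8 * (d + 2) + 17 : ℕ) : ℝ) * (t + 1) := by
    rw [hl]
    push_cast
    have : (0 : ℝ) ≤ t := by positivity
    have : (0 : ℝ) ≤ d := by positivity
    nlinarith
  have h3 : (2 * ((4 * lg d (4 * N + 8) + 8 : ℕ) : ℝ) + 1) ^ d ≤ C * (10 * ((N : ℝ) + 1)) :=
    (pow_le_pow_left₀ (by positivity) h2 d).trans
      ((hC t).trans (mul_le_mul_of_nonneg_left h1 hC0.le))
  have h4 : ((N : ℝ) + 1) ^ 3 ≤ (2 * (N : ℝ) + 1) ^ d := by
    have h0 : (0 : ℝ) ≤ N := by positivity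
    exact (pow_le_pow_left₀ (by positivity) (by linarith) 3).trans
      (pow_le_pow_right₀ (by linarith) hd)
  calc 4 * (2 * ((4 * lg d (4 * N + 8) + 8 : ℕ) : ℝ) + 1) ^ d / (ρ ^ 2 * (2 * N + 1) ^ d)
      ≤ 4 * (C * (10 * ((N : ℝ) + 1))) / (ρ ^ 2 * ((N : ℝ) + 1) ^ 3) := by
        apply div_le_div₀ (by positivity) (by linarith) (by positivity)
        exact mul_le_mul_of_nonneg_left h4 (by positivity)
    _ = 4 * C * 10 / ρ ^ 2 * (1 / ((N : ℝ) + 1) ^ 2) := by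
        field_simp

theorem lln : S_CHEB → S_PEI → S_AEGOOD → S_NEAR → S_PATC → S_LLN := by
  intro hCheb hPei hAEG hNear hPatc d Ω _ μ X p i hd hP hp1 hK
  have hP' := hP
  obtain ⟨hμ, hX, hind, hprob⟩ := hP'
  have hq : 0 < 1 - p := by linarith
  have hKpos : (1 : ℝ) ≤ (d : ℝ) * 3 ^ d := by
    have h1 : (1 : ℝ) ≤ d := by exact_mod_cast (by omega : 1 ≤ d)
    have h2 : (1 : ℝ) ≤ 3 ^ d := one_le_pow₀ (by norm_num)
    nlinarith
  have hp0 : 0 < p := by nlinarith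
  set ρ : ℝ := (min p (1 - p)) ^ (9 ^ d * d) / 2 with hρ
  have hρ0 : 0 < ρ := by
    have : 0 < min p (1 - p) := lt_min hp0 hq
    positivity
  refine ⟨ρ / 2, by positivity, ?_⟩
  set B : ℕ → Set Ω := fun N => {ω | (((box d N).filter fun v =>
    ω ∈ AE X i (lg d (4 * N + 8)) v).card : ℝ) ≤ ρ / 2 * (2 * N + 1) ^ d} with hB
  obtain ⟨C, hC0, hC⟩ := cheb_bound d hd ρ hρ0
  have h1 : ∀ N, μ.real (B N) ≤ C * (1 / ((N : ℝ) + 1) ^ 2) := by
    intro N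
    refine le_trans ?_ (hC N)
    exact hCheb d Ω μ (AE X i (lg d (4 * N + 8))) N (4 * lg d (4 * N + 8) + 8) ρ hρ0
      (fun v => (dep_AE X i _ v).measurableSet hX)
      (fun v _ => AE_lower hPei hP (by omega) hp0 hp1 hK i _ v)
      (fun v _ w _ hvw => AE_indep hP i _ v w hvw)
  have hsum : Summable fun N : ℕ => C * (1 / ((N : ℝ) + 1) ^ 2) := by
    apply Summable.mul_left
    have := (summable_nat_add_iff 1).mpr (Real.summable_one_div_nat_pow.mpr (by norm_num : 1 < 2))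
    simpa using this
  have h2 : ∑' N, μ (B N) ≠ ⊤ := by
    have h3 : ∀ N, μ (B N) ≤ ENNReal.ofReal (C * (1 / ((N : ℝ) + 1) ^ 2)) := by
      intro N
      rw [← ENNReal.ofReal_toReal (measure_ne_top μ (B N))]
      exact ENNReal.ofReal_le_ofReal (h1 N)
    refine ne_top_of_le_ne_top ?_ (ENNReal.tsum_le_tsum h3)
    rw [← ENNReal.ofReal_tsum_of_nonneg (fun N => by positivity) hsum]
    exact ENNReal.ofReal_ne_top
  have h3 := ae_eventually_notMem h2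
  have h4 := hAEG d Ω μ X p hP (by linarith)
  filter_upwards [h3, h4] with ω hω1 hω2
  obtain ⟨N1, hN1⟩ := inf_of_local hNear hPatc X i (by omega) ω hω2
  filter_upwards [hω1, eventually_ge_atTop N1] with N hN2 hN3
  simp only [hB, Set.mem_ofPred_eq, not_le] at hN2
  refine hN2.le.trans ?_
  exact_mod_cast card_le_card fun v hv => by
    rw [mem_filter] at hv ⊢
    exact ⟨hv.1, hN1 N hN3 v hv.1 hv.2⟩

end Pool.Agent.W196.VG
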