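import Pool.Agent.W844.VG.Basic

/-! Events depending on finitely many edges, and the local events of the law of large numbers for
the pattern (VG-LLN). -/

set_option autoImplicit false

open Finset MeasureTheory ProbabilityTheory
open scoped Classical

namespace Pool.Agent.W196.VG

open Pool.Agent.W844.VG

variable {d : ℕ} {Ω : Type}

/-- the event `S` depends only on the states of the edges in `F` -/
def Dep (X : E d → Ω → Bool) (F : Finset (E d)) (S : Set Ω) : Prop :=
  ∀ ω ω', (∀ e ∈ F, X e ω = X e ω') → (ω ∈ S → ω' ∈ S)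

lemma Dep.exists_preimage {X : E d → Ω → Bool} {F : Finset (E d)} {S : Set Ω} (h : Dep X F S) :
    ∃ T : Set (F → Bool), S = (fun ω (e : F) => X e ω) ⁻¹' T := by
  refine ⟨{x | ∃ ω ∈ S, ∀ e : F, X e ω = x e}, ?_⟩
  ext ω
  constructor
  · intro hω
    exact ⟨ω, hω, fun _ => rfl⟩
  · rintro ⟨ω', hω', h2⟩
    exact h ω' ω (fun e he => h2 ⟨e, he⟩) hω'

lemma Dep.mono {X : E d → Ω → Bool} {F G : Finset (E d)} {S : Set Ω} (h : Dep X F S)
    (hFG : F ⊆ G) : Dep X G S := fun ω ω' h1 => h ω ω' fun e he => h1 e (hFG he)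

lemma Dep.compl {X : E d → Ω → Bool} {F : Finset (E d)} {S : Set Ω} (h : Dep X F S) :
    Dep X F Sᶜ := fun ω ω' h1 h2 h3 => h2 (h ω' ω (fun e he => (h1 e he).symm) h3)

lemma Dep.inter {X : E d → Ω → Bool} {F : Finset (E d)} {S T : Set Ω} (hS : Dep X F S)
    (hT : Dep X F T) : Dep X F (S ∩ T) :=
  fun ω ω' h1 h2 => ⟨hS ω ω' h1 h2.1, hT ω ω' h1 h2.2⟩

variable [MeasurableSpace Ω] {μ : Measure Ω}

lemma Dep.measurableSet {X : E d → Ω → Bool} {F : Finset (E d)} {S : Set Ω} (h : Dep X F S)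
    (hX : ∀ e, Measurable (X e)) : MeasurableSet S := by
  obtain ⟨T, rfl⟩ := h.exists_preimage
  have hm : Measurable (fun ω (e : F) => X e ω) := measurable_pi_lambda _ fun e => hX e
  exact hm (Set.toFinite T).measurableSet

lemma Dep.indep {X : E d → Ω → Bool} {F G : Finset (E d)} {S T : Set Ω} (hS : Dep X F S)
    (hT : Dep X G T) (hFG : Disjoint F G) (hX : ∀ e, Measurable (X e)) (hind : iIndepFun X μ) :
    μ.real (S ∩ T) = μ.real S * μ.real T := by
  obtain ⟨S', rfl⟩ := hS.exists_preimage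
  obtain ⟨T', rfl⟩ := hT.exists_preimage
  have := (hind.indepFun_finset F G hFG hX).measure_inter_preimage_eq_mul S' T'
    (Set.toFinite _).measurableSet (Set.toFinite _).measurableSet
  unfold Measure.real
  rw [this, ENNReal.toReal_mul]

/-- the edges whose base point is at distance at most `r` from `v` -/
noncomputable def ballF (v : V d) (r : ℕ) : Finset (E d) := (finite_edge_ball v r).toFinset

lemma mem_ballF {v : V d} {r : ℕ} {e : E d} : e ∈ ballF v r ↔ nm (e.1 - v) ≤ r := by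
  unfold ballF; simp

lemma card_ballF (v : V d) (r : ℕ) : (ballF v r).card ≤ (2 * r + 1) ^ d * d := by
  have h1 : ballF v r ⊆ ((ballF v r).image Prod.fst) ×ˢ (univ : Finset (Fin d)) := by
    intro e he
    rw [mem_product]
    exact ⟨mem_image_of_mem _ he, mem_univ _⟩
  have h2 := card_le_card h1
  rw [card_product, card_univ, Fintype.card_fin] at h2
  refine h2.trans (Nat.mul_le_mul_right _ ?_)
  apply card_ball_le _ v
  intro x hx
  rw [mem_image] at hx
  obtain ⟨e, he, rfl⟩ := hx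
  exact mem_ballF.mp he

/-! ### the pattern event -/

/-- the pattern occurs at `v` -/
def PatE (X : E d → Ω → Bool) (i : Fin d) (v : V d) : Set Ω := {ω | Pat (opn X ω) i v}

omit [MeasurableSpace Ω] in
lemma dep_pat (X : E d → Ω → Bool) (i : Fin d) (v : V d) : Dep X (ballF v 4) (PatE X i v) := by
  intro ω ω' h hω e he
  rw [← hω e he]
  show X e ω' = true ↔ X e ω = true
  rw [h e (mem_ballF.mpr he)]

lemma pat_lower {X : E d → Ω → Bool} {p : ℝ} (hP : IsPerc μ X p) (hp0 : 0 < p) (hp1 : p < 1)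
    (i : Fin d) (v : V d) : (min p (1 - p)) ^ (9 ^ d * d) ≤ μ.real (PatE X i v) := by
  obtain ⟨hμ, hX, hind, hprob⟩ := hP
  set b : E d → Bool := fun e =>
    decide ((e.1 ∉ TT i v ∧ e.1 + stp e.2 ∉ TT i v) ∨ e ∈ AL i v) with hb
  have hset : PatE X i v = ⋂ e ∈ ballF v 4, X e ⁻¹' {b e} := by
    ext ω
    simp only [PatE, Pat, Set.mem_ofPred_eq, Set.mem_iInter, mem_ballF, Set.mem_preimage,
      Set.mem_singleton_iff, opn]
    refine forall_congr' fun e => forall_congr' fun he => ?_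
    rw [hb]
    simp only
    by_cases hc : (e.1 ∉ TT i v ∧ e.1 + stp e.2 ∉ TT i v) ∨ e ∈ AL i v
    · rw [decide_eq_true hc]
      tauto
    · rw [decide_eq_false hc]
      constructor
      · intro h
        by_contra h2
        rw [Bool.not_eq_false] at h2
        exact hc (h.mp h2)
      · intro h
        rw [h]
        simp only [Bool.false_eq_true, false_iff]
        exact hc
  have hm0 : 0 < min p (1 - p) := lt_min hp0 (by linarith)
  have hm1 : min p (1 - p) ≤ 1 := (min_le_left _ _).trans hp1.le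
  have h1 : μ.real (PatE X i v) = ∏ e ∈ ballF v 4, μ.real (X e ⁻¹' {b e}) := by
    rw [hset]
    unfold Measure.real
    rw [hind.measure_inter_preimage_eq_mul (ballF v 4) (fun e _ => measurableSet_singleton _),
      ENNReal.toReal_prod]
  have h2 : ∀ e, min p (1 - p) ≤ μ.real (X e ⁻¹' {b e}) := by
    intro e
    have ht : μ.real (X e ⁻¹' {true}) = p := hprob e
    cases b e with
    | true => rw [ht]; exact min_le_left _ _
    | false =>
      have h3 : X e ⁻¹' {false} = (X e ⁻¹' {true})ᶜ := by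
        ext ω; simp
      rw [h3, probReal_compl_eq_one_sub (hX e (measurableSet_singleton _)), ht]
      exact min_le_right _ _
  rw [h1]
  calc (min p (1 - p)) ^ (9 ^ d * d) ≤ (min p (1 - p)) ^ (ballF v 4).card :=
        pow_le_pow_of_le_one hm0.le hm1 (card_ballF v 4)
    _ = ∏ _e ∈ ballF v 4, min p (1 - p) := by rw [prod_const]
    _ ≤ _ := prod_le_prod (fun _ _ => hm0.le) fun e _ => h2 e

/-! ### the bad events -/

/-- short closed chains around `v`, after opening the ball of radius `4` -/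
def Bad (X : E d → Ω → Bool) (i : Fin d) (v : V d) (m : ℕ) : Set Ω :=
  {ω | ∃ k ≤ m, Chain (opn X ω ∪ {e | nm (e.1 - v) ≤ 4}) (v + (k : ℤ) • stp i, i) k}

lemma chain_dist {e : E d} {m : ℕ} {c : ℕ → E d} (h0 : c 0 = e)
    (h2 : ∀ k, k < m → nm ((c (k + 1)).1 - (c k).1) ≤ 1) :
    ∀ j, j ≤ m → nm ((c j).1 - e.1) ≤ j := by
  intro j
  induction j with
  | zero => intro _; rw [h0]; simp
  | succ j ih =>
    intro hj
    have h3 := nm_tri (c (j + 1)).1 (c j).1 e.1
    have h4 := ih (by omega)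
    have h5 := h2 j (by omega)
    omega

omit [MeasurableSpace Ω] in
lemma dep_bad (X : E d → Ω → Bool) (i : Fin d) (v : V d) (m : ℕ) :
    Dep X (ballF v (2 * m) \ ballF v 4) (Bad X i v m) := by
  rintro ω ω' h ⟨k, hk, c, h0, h1, h2, h3⟩
  refine ⟨k, hk, c, h0, ?_, h2, h3⟩
  intro j hj hmem
  have hn := h1 j hj
  rw [Set.mem_union, not_or] at hn
  rcases hmem with hmem | hmem
  · apply hn.1
    show X (c j) ω = true
    rw [h (c j) ?_]
    · exact hmem
    · rw [mem_sdiff, mem_ballF, mem_ballF]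
      refine ⟨?_, hn.2⟩
      have h4 := chain_dist h0 h2 j hj
      have h5 := nm_tri (c j).1 (v + (k : ℤ) • stp i) v
      have h6 : nm (v + (k : ℤ) • stp i - v) = k := by
        rw [add_sub_cancel_left, nm_zsmul_stp]; simp
      simp only at h4
      omega
  · exact hn.2 hmem

lemma bad_upper (hPei : S_PEI) {X : E d → Ω → Bool} {p : ℝ} (hP : IsPerc μ X p) (hd : 1 ≤ d)
    (hp1 : p < 1) (hK : (d : ℝ) * 3 ^ d * (1 - p) ≤ 1 / 4) (i : Fin d) (v : V d) (m : ℕ) :
    μ.real (Bad X i v m) ≤ 1 / 2 := by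
  have hP' := hP
  obtain ⟨hμ, hX, hind, hprob⟩ := hP
  have hq : 0 < 1 - p := by linarith
  have hKpos : (1 : ℝ) ≤ (d : ℝ) * 3 ^ d := by
    have h1 : (1 : ℝ) ≤ d := by exact_mod_cast hd
    have h2 : (1 : ℝ) ≤ 3 ^ d := one_le_pow₀ (by norm_num)
    nlinarith
  have hq4 : 1 - p ≤ 1 / 4 := by nlinarith
  have hsub : Bad X i v m ⊆ ⋃ k ∈ range (m + 1),
      {ω | Chain (opn X ω) (v + (k : ℤ) • stp i, i) k} := by
    rintro ω ⟨k, hk, hc⟩
    rw [Set.mem_iUnion₂]
    exact ⟨k, mem_range.mpr (by omega), hc.mono le_rfl Set.subset_union_left⟩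
  have h1 : μ (Bad X i v m) ≤ ∑ k ∈ range (m + 1),
      ENNReal.ofReal (((d : ℝ) * 3 ^ d) ^ k * (1 - p) ^ (k + 1)) :=
    (measure_mono hsub).trans ((measure_biUnion_finset_le _ _).trans
      (sum_le_sum fun k _ => hPei d Ω μ X p hP' _ k))
  rw [← ENNReal.ofReal_sum_of_nonneg (fun k _ => by positivity)] at h1
  have h2 : ∑ k ∈ range (m + 1), ((d : ℝ) * 3 ^ d) ^ k * (1 - p) ^ (k + 1) ≤ 1 / 2 := by
    calc ∑ k ∈ range (m + 1), ((d : ℝ) * 3 ^ d) ^ k * (1 - p) ^ (k + 1)
        ≤ ∑ k ∈ range (m + 1), 1 / 4 * (1 / 4 : ℝ) ^ k := by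
          apply sum_le_sum
          intro k _
          have h3 : ((d : ℝ) * 3 ^ d) ^ k * (1 - p) ^ (k + 1) =
              (1 - p) * ((d : ℝ) * 3 ^ d * (1 - p)) ^ k := by
            generalize (d : ℝ) * 3 ^ d = K
            rw [mul_pow, pow_succ]; ring
          rw [h3]
          apply mul_le_mul hq4 _ (by positivity) (by norm_num)
          exact pow_le_pow_left₀ (by positivity) hK k
      _ = 1 / 4 * ∑ k ∈ range (m + 1), (1 / 4 : ℝ) ^ k := by rw [mul_sum]
      _ ≤ 1 / 4 * 2 := by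
          apply mul_le_mul_of_nonneg_left _ (by norm_num)
          rw [geom_sum_eq (by norm_num)]
          have : (0 : ℝ) ≤ (1 / 4) ^ (m + 1) := by positivity
          rw [div_le_iff_of_neg (by norm_num)]
          linarith
      _ = 1 / 2 := by norm_num
  have h3 : μ (Bad X i v m) ≤ ENNReal.ofReal (1 / 2) := h1.trans (ENNReal.ofReal_le_ofReal h2)
  unfold Measure.real
  exact ENNReal.toReal_le_of_le_ofReal (by norm_num) h3

/-! ### the local events -/

/-- the pattern occurs and there are no short chains -/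
def AE (X : E d → Ω → Bool) (i : Fin d) (m : ℕ) (v : V d) : Set Ω :=
  PatE X i v ∩ (Bad X i v m)ᶜ

omit [MeasurableSpace Ω] in
lemma dep_AE (X : E d → Ω → Bool) (i : Fin d) (m : ℕ) (v : V d) :
    Dep X (ballF v (2 * m + 4)) (AE X i m v) := by
  apply Dep.inter
  · apply (dep_pat X i v).mono
    intro e he
    rw [mem_ballF] at he ⊢
    omega
  · apply (dep_bad X i v m).compl.mono
    intro e he
    rw [mem_sdiff, mem_ballF] at he
    rw [mem_ballF]
    omega

lemma AE_lower (hPei : S_PEI) {X : E d → Ω → Bool} {p : ℝ} (hP : IsPerc μ X p) (hd : 1 ≤ d)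
    (hp0 : 0 < p) (hp1 : p < 1) (hK : (d : ℝ) * 3 ^ d * (1 - p) ≤ 1 / 4) (i : Fin d) (m : ℕ)
    (v : V d) : (min p (1 - p)) ^ (9 ^ d * d) / 2 ≤ μ.real (AE X i m v) := by
  have h1 := pat_lower hP hp0 hp1 i v
  have h2 := bad_upper hPei hP hd hp1 hK i v m
  obtain ⟨hμ, hX, hind, hprob⟩ := hP
  have hdis : Disjoint (ballF v 4) (ballF v (2 * m) \ ballF v 4) := disjoint_sdiff
  have h3 : μ.real (AE X i m v) = μ.real (PatE X i v) * μ.real (Bad X i v m)ᶜ :=
    (dep_pat X i v).indep (dep_bad X i v m).compl hdis hX hind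
  rw [h3, probReal_compl_eq_one_sub ((dep_bad X i v m).measurableSet hX)]
  have h4 : (0 : ℝ) ≤ (min p (1 - p)) ^ (9 ^ d * d) := by
    have : 0 < min p (1 - p) := lt_min hp0 (by linarith)
    positivity
  nlinarith

lemma AE_indep {X : E d → Ω → Bool} {p : ℝ} (hP : IsPerc μ X p) (i : Fin d) (m : ℕ) (v w : V d)
    (hvw : 4 * m + 8 < nm (v - w)) :
    μ.real (AE X i m v ∩ AE X i m w) = μ.real (AE X i m v) * μ.real (AE X i m w) := by
  obtain ⟨hμ, hX, hind, hprob⟩ := hP
  apply (dep_AE X i m v).indep (dep_AE X i m w) _ hX hind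
  rw [Finset.disjoint_left]
  intro e he hw
  rw [mem_ballF] at he hw
  have h1 := nm_tri v e.1 w
  rw [nm_sub_comm v e.1] at h1
  omega

end Pool.Agent.W196.VG
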